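import Pool.Agent.P.MP_2ea9e4_al.Red

namespace Pool.Agent.Results.MP_2ea9e4_al.Reductive

open Pool.Agent.P.MP_2ea9e4_al

theorem result : ∃ (n : Type) (_ : Fintype n) (_ : DecidableEq n)
    (Γ : Subgroup (Matrix.GeneralLinearGroup n (AlgebraicClosure ℚ_[2])))
    (G : Type) (_ : Group G) (_ : TopologicalSpace G),
    ConnRed Γ ∧ Nonempty (G ≃ₜ* ratPts Γ) ∧ LCTD G ∧ AllInduced G ∧
    ∃ (E : Type) (_ : Group E) (_ : TopologicalSpace E) (p : E →* G),
      LCTD E ∧ IsCover p ∧ Nat.card p.ker = 4 ∧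
      (∀ K : Subgroup G, CMC K → ∃ s, IsSplitting p K s) ∧
      ∃ ε : p.ker →* ℂˣ, Function.Injective ε ∧
        ∃ (V : Type) (_ : AddCommGroup V) (_ : Module ℂ V) (π : Representation ℂ E V),
          IrrSC π ∧ Genuine p ε π ∧ ¬ OfForm p ε π :=
  ⟨II, inferInstance, inferInstance, RR.range, GG, inferInstance, inferInstance, connRed_RR,
    points_RR, main⟩

end Pool.Agent.Results.MP_2ea9e4_al.Reductive
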